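import Pool.Agent.Helper11.PK.Defs

/-!
# S34: right multiplication by Fox coefficients is injective on functions supported in `B`
(project PK, port of the file of helper61)
-/

namespace Pool.Agent.Helper86.PK

universe u v

open MonoidAlgebra Pool.Agent.Helper11.PK

section rm

variable {k : Type} [Field k] {G : Type u} [Group G]

theorem rmul_add_right (f : G → k) (z z' : MonoidAlgebra k G) :
    rmul f (z + z') = rmul f z + rmul f z' := by
  funext x
  unfold rmul
  rw [coeff_add, Finsupp.sum_add_index', Pi.add_apply]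
  · intro a
    rw [mul_zero]
  · intro a q q'
    rw [mul_add]

/-- right multiplication, additive in the second variable -/
noncomputable def rmulHom (f : G → k) : MonoidAlgebra k G →+ (G → k) where
  toFun z := rmul f z
  map_zero' := by
    funext x
    simp [rmul]
  map_add' := rmul_add_right f

theorem rmul_single (f : G → k) (g : G) (q : k) (x : G) :
    rmul f (single g q) x = f (x * g⁻¹) * q := by
  unfold rmul
  rw [coeff_single, Finsupp.sum_single_index]
  rw [mul_zero]

theorem rmul_one (f : G → k) : rmul f 1 = f := by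
  funext x
  rw [one_def, rmul_single, inv_one, mul_one, mul_one]

theorem rmul_zero (f : G → k) : rmul f 0 = 0 := (rmulHom f).map_zero

theorem zero_rmul (z : MonoidAlgebra k G) : rmul (0 : G → k) z = 0 := by
  funext x
  simp [rmul]

theorem rmul_add_left (f f' : G → k) (z : MonoidAlgebra k G) :
    rmul (f + f') z = rmul f z + rmul f' z := by
  funext x
  simp only [rmul, Pi.add_apply, add_mul]
  exact Finsupp.sum_add

theorem rmul_smul_left (q : k) (f : G → k) (z : MonoidAlgebra k G) :
    rmul (q • f) z = q • rmul f z := by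
  funext x
  simp only [rmul, Pi.smul_apply, smul_eq_mul, Finsupp.sum, Finset.mul_sum, mul_assoc]

theorem rmul_smul_right (q : k) (f : G → k) (z : MonoidAlgebra k G) :
    rmul f (q • z) = q • rmul f z := by
  induction z using MonoidAlgebra.induction_linear with
  | zero => rw [smul_zero, rmul_zero, smul_zero]
  | add z z' h h' => rw [smul_add, rmul_add_right, h, h', rmul_add_right, smul_add]
  | single g r =>
    funext x
    rw [smul_single, rmul_single, Pi.smul_apply, rmul_single, smul_eq_mul, smul_eq_mul]
    ring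

theorem rmul_sum_left {ι : Type*} (s : Finset ι) (f : ι → G → k) (z : MonoidAlgebra k G) :
    rmul (∑ i ∈ s, f i) z = ∑ i ∈ s, rmul (f i) z := by
  classical
  induction s using Finset.induction_on with
  | empty => rw [Finset.sum_empty, Finset.sum_empty, zero_rmul]
  | insert i s hi ih => rw [Finset.sum_insert hi, Finset.sum_insert hi, rmul_add_left, ih]

theorem rmul_mul (f : G → k) (z z' : MonoidAlgebra k G) :
    rmul (rmul f z) z' = rmul f (z * z') := by
  induction z' using MonoidAlgebra.induction_linear with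
  | zero => rw [mul_zero, rmul_zero, rmul_zero]
  | add z z' h h' => rw [rmul_add_right, h, h', mul_add, rmul_add_right]
  | single g r =>
    induction z using MonoidAlgebra.induction_linear with
    | zero => rw [zero_mul, rmul_zero, zero_rmul]
    | add z z' h h' => rw [rmul_add_right, rmul_add_left, h, h', add_mul, rmul_add_right]
    | single h q =>
      funext x
      rw [rmul_single, rmul_single, single_mul_single, rmul_single, mul_inv_rev, mul_assoc,
        mul_assoc]

/-- linear extension of a function on the group -/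
noncomputable def ext (φ : G → MonoidAlgebra k G) : MonoidAlgebra k G →+ MonoidAlgebra k G where
  toFun z := z.coeff.sum fun x q => q • φ x
  map_zero' := by simp
  map_add' z z' := by
    rw [coeff_add, Finsupp.sum_add_index']
    · intro a
      rw [zero_smul]
    · intro a q q'
      rw [add_smul]

theorem ext_apply (φ : G → MonoidAlgebra k G) (z : MonoidAlgebra k G) :
    ext φ z = z.coeff.sum fun x q => q • φ x := rfl

theorem ext_single (φ : G → MonoidAlgebra k G) (g : G) (q : k) :
    ext φ (single g q) = q • φ g := by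
  rw [ext_apply, coeff_single, Finsupp.sum_single_index]
  rw [zero_smul]

theorem ext_mul (φ : G → MonoidAlgebra k G) (z : MonoidAlgebra k G) (a : G) :
    ext φ (z * (gl k a - 1)) = ext (fun x => φ (x * a) - φ x) z := by
  induction z using MonoidAlgebra.induction_linear with
  | zero => rw [zero_mul, map_zero, map_zero]
  | add z z' h h' => rw [add_mul, map_add, h, h', map_add]
  | single g r =>
    rw [mul_sub, mul_one, single_mul_single, mul_one, map_sub, ext_single, ext_single, ext_single,
      smul_sub]

theorem rmul_ext (f : G → k) (φ : G → MonoidAlgebra k G) (z : MonoidAlgebra k G) :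
    rmul f (ext φ z) = z.coeff.sum fun x q => q • rmul f (φ x) := by
  change rmulHom f (ext φ z) = _
  rw [ext_apply, map_finsuppSum]
  refine Finsupp.sum_congr fun x _ => ?_
  exact rmul_smul_right _ _ _

end rm

theorem ps34 {k : Type} [Field k] {G : Type u} [Group G] (A B C : Subgroup G) (hC : C = A ⊓ B) {r m : ℕ}
    (a : Fin r → G) (ha : Subgroup.closure (Set.range a) = A)
    {Y : Type v} (c : Y → G) (hc : Function.Injective (FreeGroup.lift c))
    (hcC : Subgroup.closure (Set.range c) = C) (y : Fin m → Y) (hy : Function.Injective y)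
    (hder : ∀ (M : Type u) [AddCommGroup M], Pool.Agent.Helper11.PC.FreeDer Y M)
    (α : Fin m → Fin r → MonoidAlgebra k G)
    (hαA : ∀ i j, ∀ x ∈ (α i j).coeff.support, x ∈ A)
    (hα : ∀ i, gl k (c (y i)) - 1 = ∑ j, α i j * (gl k (a j) - 1))
    (f : Fin m → G → k) (hfB : ∀ i x, f i x ≠ 0 → x ∈ B)
    (hf : ∀ j x, ∑ i, rmul (f i) (α i j) x = 0) : ∀ i, f i = 0 := by
  classical
  intro l
  have hCA : C ≤ A := by rw [hC]; exact inf_le_left
  have hCB : C ≤ B := by rw [hC]; exact inf_le_right
  -- the derivation
  let Φ : FreeGroup Y →* G := FreeGroup.lift c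
  obtain ⟨δ, hδ1, hδ2⟩ := hder (MonoidAlgebra k G)
    (((Module.toAddMonoidEnd (MonoidAlgebra k G) (MonoidAlgebra k G)).toMonoidHom.comp
      (MonoidAlgebra.of k G)).comp Φ) (fun y' => if y' = y l then 1 else 0)
  have hδ3 : ∀ g h, δ (g * h) = δ g + gl k (Φ g) * δ h := fun g h => hδ2 g h
  have hex : ∀ x ∈ C, ∃ g, Φ g = x := by
    intro x hx
    rw [← hcC, ← FreeGroup.range_lift_eq_closure] at hx
    exact hx
  choose! iv hiv using hex
  let D : G → MonoidAlgebra k G := fun x => δ (iv x)
  have hDmul : ∀ x ∈ C, ∀ x' ∈ C, D (x * x') = D x + gl k x * D x' := by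
    intro x hx x' hx'
    have h1 : iv (x * x') = iv x * iv x' := by
      apply hc
      change Φ _ = Φ _
      rw [map_mul, hiv _ (C.mul_mem hx hx'), hiv _ hx, hiv _ hx']
    change δ (iv (x * x')) = δ (iv x) + gl k x * δ (iv x')
    rw [h1, hδ3, hiv _ hx]
  have hD1 : D 1 = 0 := by
    have h1 := hDmul 1 C.one_mem 1 C.one_mem
    rw [mul_one] at h1
    have h2 : gl k (1 : G) = 1 := rfl
    rw [h2, one_mul] at h1
    exact left_eq_add.1 h1
  have hcy : ∀ y', c y' ∈ C := fun y' => by
    rw [← hcC]; exact Subgroup.subset_closure ⟨y', rfl⟩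
  have hDc : ∀ i, D (c (y i)) = if i = l then 1 else 0 := by
    intro i
    have h1 : iv (c (y i)) = FreeGroup.of (y i) := by
      apply hc
      change Φ _ = Φ _
      rw [hiv _ (hcy _)]
      simp [Φ]
    change δ (iv (c (y i))) = _
    rw [h1, hδ1]
    simp only [hy.eq_iff]
  -- representatives of the right cosets
  let rep : G → G := fun x => (Quotient.mk (QuotientGroup.rightRel C) x).out
  have hrep : ∀ x, x * (rep x)⁻¹ ∈ C := by
    intro x
    have h1 : QuotientGroup.rightRel C (rep x) x := Quotient.mk_out (s := QuotientGroup.rightRel C) x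
    exact QuotientGroup.rightRel_apply.1 h1
  have hrepc : ∀ x x', x' * x⁻¹ ∈ C → rep x = rep x' := by
    intro x x' h
    have h1 : (Quotient.mk (QuotientGroup.rightRel C) x) = Quotient.mk (QuotientGroup.rightRel C) x' :=
      Quotient.sound (QuotientGroup.rightRel_apply.2 h)
    change (Quotient.mk (QuotientGroup.rightRel C) x).out =
      (Quotient.mk (QuotientGroup.rightRel C) x').out
    rw [h1]
  have hrepmul : ∀ x' ∈ C, ∀ x, rep (x' * x) = rep x := by
    intro x' hx' x
    refine (hrepc x (x' * x) ?_).symm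
    rw [mul_inv_cancel_right]
    exact hx'
  let s0 : G → G := fun x => x * (rep x)⁻¹
  have hs0C : ∀ x, s0 x ∈ C := hrep
  have hs0mul : ∀ x' ∈ C, ∀ x, s0 (x' * x) = x' * s0 x := by
    intro x' hx' x
    change x' * x * (rep (x' * x))⁻¹ = x' * (x * (rep x)⁻¹)
    rw [hrepmul x' hx', mul_assoc]
  let φ : G → MonoidAlgebra k G := fun x => D (s0 x * (s0 1)⁻¹)
  have hφmul : ∀ x' ∈ C, ∀ x, φ (x' * x) = D x' + gl k x' * φ x := by
    intro x' hx' x
    change D (s0 (x' * x) * (s0 1)⁻¹) = _
    rw [hs0mul x' hx', mul_assoc, hDmul x' hx' _ (C.mul_mem (hs0C x) (C.inv_mem (hs0C 1)))]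
  have hφ1 : φ 1 = 0 := by
    change D (s0 1 * (s0 1)⁻¹) = 0
    rw [mul_inv_cancel, hD1]
  have hφC : ∀ x ∈ C, φ x = D x := by
    intro x hx
    have h1 := hφmul x hx 1
    rw [mul_one, hφ1, mul_zero, add_zero] at h1
    exact h1
  let ψ : Fin r → G → MonoidAlgebra k G := fun j x => φ (x * a j) - φ x
  have hψmul : ∀ j, ∀ x' ∈ C, ∀ x, ψ j (x' * x) = gl k x' * ψ j x := by
    intro j x' hx' x
    change φ (x' * x * a j) - φ (x' * x) = gl k x' * (φ (x * a j) - φ x)
    rw [mul_assoc, hφmul x' hx', hφmul x' hx', mul_sub]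
    abel
  have hψrep : ∀ j x, ψ j x = gl k (s0 x) * ψ j (rep x) := by
    intro j x
    rw [← hψmul j _ (hs0C x)]
    congr 1
    change x = x * (rep x)⁻¹ * rep x
    rw [inv_mul_cancel_right]
  -- the Fox identity
  have hfox : ∀ i, (if i = l then 1 else 0 : MonoidAlgebra k G) = ∑ j, ext (ψ j) (α i j) := by
    intro i
    have h1 := congrArg (ext φ) (hα i)
    rw [map_sub, map_sum] at h1
    have h2 : ext φ (gl k (c (y i))) = D (c (y i)) := by
      rw [ext_single, one_smul, hφC _ (hcy _)]
    have h3 : ext φ (1 : MonoidAlgebra k G) = 0 := by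
      rw [one_def, ext_single, one_smul, hφ1]
    rw [h2, h3, sub_zero, hDc] at h1
    rw [h1]
    exact Finset.sum_congr rfl fun j _ => ext_mul φ (α i j) (a j)
  -- the sums
  have key : ∀ j, ∑ i, rmul (f i) (ext (ψ j) (α i j)) = 0 := by
    intro j
    let X : Finset G := Finset.univ.biUnion fun i => (α i j).coeff.support
    have hX : ∀ i, (α i j).coeff.support ⊆ X := fun i =>
      Finset.subset_biUnion_of_mem (fun i => (α i j).coeff.support) (Finset.mem_univ i)
    have hXA : ∀ x ∈ X, x ∈ A := by
      intro x hx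
      obtain ⟨i, _, hi⟩ := Finset.mem_biUnion.1 hx
      exact hαA i j x hi
    -- the contribution of a coset
    let H : G → G → k := fun ρ => ∑ x ∈ X.filter fun x => rep x = ρ, ∑ i,
      (α i j).coeff x • rmul (f i) (gl k (s0 x))
    have hH : ∀ ρ, (∃ x ∈ X, rep x = ρ) → H ρ = 0 := by
      rintro ρ ⟨x0, hx0, hρ⟩
      have hρA : ρ ∈ A := by
        have h1 : (x0 * (rep x0)⁻¹)⁻¹ * x0 ∈ A :=
          A.mul_mem (A.inv_mem (hCA (hrep x0))) (hXA x0 hx0)
        rw [mul_inv_rev, inv_inv, inv_mul_cancel_right, hρ] at h1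
        exact h1
      have hρρ : rep ρ = ρ := by
        rw [← hρ]
        exact hrepc _ _ (hrep x0)
      funext z
      have hval : H ρ z = ∑ x ∈ X.filter fun x => rep x = ρ, ∑ i,
          (α i j).coeff x * f i (z * ρ * x⁻¹) := by
        change (∑ x ∈ X.filter fun x => rep x = ρ, ∑ i,
          (α i j).coeff x • rmul (f i) (gl k (s0 x))) z = _
        rw [Finset.sum_apply]
        refine Finset.sum_congr rfl fun x hx => ?_
        rw [Finset.sum_apply]
        refine Finset.sum_congr rfl fun i _ => ?_
        rw [Pi.smul_apply, rmul_single, mul_one, smul_eq_mul]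
        congr 2
        have h2 := (Finset.mem_filter.1 hx).2
        change z * (x * (rep x)⁻¹)⁻¹ = z * ρ * x⁻¹
        rw [h2, mul_inv_rev, inv_inv, mul_assoc]
      rw [hval, Pi.zero_apply]
      by_cases hz : z ∈ B
      · have h3 : ∑ x ∈ X.filter fun x => rep x = ρ, ∑ i, (α i j).coeff x * f i (z * ρ * x⁻¹) =
            ∑ x ∈ X, ∑ i, (α i j).coeff x * f i (z * ρ * x⁻¹) := by
          refine Finset.sum_subset (Finset.filter_subset _ _) fun x hx hx' => ?_
          refine Finset.sum_eq_zero fun i _ => ?_
          by_contra hne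
          apply hx'
          rw [Finset.mem_filter]
          refine ⟨hx, ?_⟩
          have h4 : z * ρ * x⁻¹ ∈ B := hfB i _ (right_ne_zero_of_mul hne)
          have h5 : ρ * x⁻¹ ∈ B := by
            have h6 := B.mul_mem (B.inv_mem hz) h4
            rwa [mul_assoc, inv_mul_cancel_left] at h6
          have h7 : ρ * x⁻¹ ∈ C := by
            rw [hC]
            exact ⟨A.mul_mem hρA (A.inv_mem (hXA x hx)), h5⟩
          rw [hrepc x ρ h7, hρρ]
        rw [h3, Finset.sum_comm, ← hf j (z * ρ)]
        refine Finset.sum_congr rfl fun i _ => ?_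
        unfold rmul
        rw [Finsupp.sum_of_support_subset _ (hX i)]
        · refine Finset.sum_congr rfl fun x _ => ?_
          rw [mul_comm]
        · intro x _
          rw [mul_zero]
      · refine Finset.sum_eq_zero fun x hx => Finset.sum_eq_zero fun i _ => ?_
        by_contra hne
        have h4 : z * ρ * x⁻¹ ∈ B := hfB i _ (right_ne_zero_of_mul hne)
        have h2 := (Finset.mem_filter.1 hx).2
        have h5 : x * ρ⁻¹ ∈ B := by
          rw [← h2]
          exact hCB (hrep x)
        apply hz
        have h6 := B.mul_mem h4 h5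
        rwa [mul_assoc, inv_mul_cancel_left, mul_inv_cancel_right] at h6
    have h8 : ∑ i, rmul (f i) (ext (ψ j) (α i j)) = ∑ x ∈ X, ∑ i,
        rmul ((α i j).coeff x • rmul (f i) (gl k (s0 x))) (ψ j (rep x)) := by
      rw [Finset.sum_comm]
      refine Finset.sum_congr rfl fun i _ => ?_
      rw [rmul_ext, Finsupp.sum_of_support_subset _ (hX i)]
      · refine Finset.sum_congr rfl fun x _ => ?_
        rw [rmul_smul_left, rmul_mul, ← hψrep]
      · intro x _
        rw [zero_smul]
    rw [h8, ← Finset.sum_fiberwise_of_maps_to (t := X.image rep) (g := rep)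
      (fun x hx => Finset.mem_image_of_mem rep hx)]
    refine Finset.sum_eq_zero fun ρ hρ => ?_
    have h9 : ∑ x ∈ X.filter fun x => rep x = ρ, ∑ i,
        rmul ((α i j).coeff x • rmul (f i) (gl k (s0 x))) (ψ j (rep x)) = rmul (H ρ) (ψ j ρ) := by
      change _ = rmul (∑ x ∈ X.filter fun x => rep x = ρ, ∑ i,
        (α i j).coeff x • rmul (f i) (gl k (s0 x))) (ψ j ρ)
      rw [rmul_sum_left]
      refine Finset.sum_congr rfl fun x hx => ?_
      rw [(Finset.mem_filter.1 hx).2, rmul_sum_left]
    rw [h9, hH ρ (by simpa using hρ), zero_rmul]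
  have hfin : f l = ∑ i, rmul (f i) (if i = l then 1 else 0 : MonoidAlgebra k G) := by
    rw [Finset.sum_eq_single l]
    · rw [if_pos rfl, rmul_one]
    · intro i _ hi
      rw [if_neg hi, rmul_zero]
    · intro h
      exact absurd (Finset.mem_univ l) h
  rw [hfin]
  calc ∑ i, rmul (f i) (if i = l then 1 else 0 : MonoidAlgebra k G)
      = ∑ i, ∑ j, rmul (f i) (ext (ψ j) (α i j)) := by
        refine Finset.sum_congr rfl fun i _ => ?_
        rw [hfox i]
        exact map_sum (rmulHom (f i)) _ _
    _ = ∑ j, ∑ i, rmul (f i) (ext (ψ j) (α i j)) := Finset.sum_comm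
    _ = 0 := Finset.sum_eq_zero fun j _ => key j

end Pool.Agent.Helper86.PK
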